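import Pool.Agent.Y271.RO.Stm

/-!
# RO-WKS: weak sequential compactness of bounded sequences of functions (helper349, for helper271)
-/

set_option autoImplicit false

namespace Pool.Agent.Y349.RO

open MeasureTheory Set Metric Filter Topology
open scoped InnerProductSpace ENNReal NNReal ComplexConjugate ContDiff

section gen

variable (ν : Measure ℂ) [IsFiniteMeasure ν]

/-- weak limits in `L²` -/
theorem step1 (p : ℕ → ℂ → ℂ) (C : ℝ) (hC : 0 ≤ C) (hm : ∀ n, Measurable (p n))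
    (hb : ∀ n z, ‖p n z‖ ≤ C) :
    ∃ (s : ℕ → ℕ) (y : ℂ → ℂ), StrictMono s ∧ Measurable y ∧ Integrable y ν ∧
      ∀ g : ℂ → ℂ, MemLp g 2 ν →
      Tendsto (fun n => ∫ z, p (s n) z * g z ∂ν) atTop (𝓝 (∫ z, conj (y z) * g z ∂ν)) := by
  have : Fact ((2 : ℝ≥0∞) ≠ ⊤) := ⟨ENNReal.ofNat_ne_top⟩
  have hmem : ∀ n, MemLp (fun z => conj (p n z)) 2 ν := fun n =>
    MemLp.of_bound (Complex.continuous_conj.measurable.comp (hm n)).aestronglyMeasurable C
      (ae_of_all _ fun z => by rw [RCLike.norm_conj]; exact hb n z)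
  let Y : ℕ → Lp ℂ 2 ν := fun n => (hmem n).toLp _
  obtain ⟨R, hR⟩ : ∃ R : ℝ, ∀ n, ‖Y n‖ ≤ R := by
    refine ⟨_, fun n => Lp.norm_le_of_ae_bound hC ?_⟩
    filter_upwards [(hmem n).coeFn_toLp] with z hz
    rw [hz, RCLike.norm_conj]
    exact hb n z
  let x : ℕ → WeakDual ℂ (Lp ℂ 2 ν) := fun n => StrongDual.toWeakDual (innerSL ℂ (Y n))
  have hx : ∀ n, x n ∈ WeakDual.toStrongDual ⁻¹' Metric.closedBall
      (0 : StrongDual ℂ (Lp ℂ 2 ν)) R := by
    intro n
    rw [mem_preimage, mem_closedBall_zero_iff]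
    refine le_trans (le_of_eq ?_) (hR n)
    exact innerSL_apply_norm ℂ (Y n)
  obtain ⟨L, -, s, hs, hL⟩ := WeakDual.isSeqCompact_closedBall ℂ _ 0 R hx
  let y := (InnerProductSpace.toDual ℂ (Lp ℂ 2 ν)).symm (WeakDual.toStrongDual L)
  refine ⟨s, y, hs, (Lp.stronglyMeasurable y).measurable,
    (Lp.memLp y).integrable one_le_two, fun g hg => ?_⟩
  have h1 := ((WeakDual.eval_continuous (hg.toLp g)).tendsto L).comp hL
  have h2 : ∀ n, x n (hg.toLp g) = ∫ z, p n z * g z ∂ν := by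
    intro n
    change ⟪Y n, hg.toLp g⟫_ℂ = _
    rw [L2.inner_def]
    refine integral_congr_ae ?_
    filter_upwards [(hmem n).coeFn_toLp, hg.coeFn_toLp] with z h3 h4
    rw [h3, h4, RCLike.inner_apply, Complex.conj_conj, mul_comm]
  have h3 : L (hg.toLp g) = ∫ z, conj (y z) * g z ∂ν := by
    have h4 : ⟪y, hg.toLp g⟫_ℂ = L (hg.toLp g) := InnerProductSpace.toDual_symm_apply
    rw [← h4, L2.inner_def]
    refine integral_congr_ae ?_
    filter_upwards [hg.coeFn_toLp] with z h4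
    rw [h4, RCLike.inner_apply, mul_comm]
  rw [← h3]
  refine h1.congr fun n => ?_
  exact h2 (s n)

/-- the weak limit is bounded -/
theorem step2 (p : ℕ → ℂ → ℂ) (C : ℝ) (hC : 0 ≤ C) (hm : ∀ n, Measurable (p n))
    (hb : ∀ n z, ‖p n z‖ ≤ C) (y : ℂ → ℂ) (hy : Measurable y) (hyi : Integrable y ν)
    (hl : ∀ g : ℂ → ℂ, MemLp g 2 ν →
      Tendsto (fun n => ∫ z, p n z * g z ∂ν) atTop (𝓝 (∫ z, conj (y z) * g z ∂ν))) :
    ∀ᵐ z ∂ν, ‖y z‖ ≤ C := by
  let A : Set ℂ := {z | C < ‖y z‖}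
  have hA : MeasurableSet A := measurableSet_lt measurable_const hy.norm
  let g : ℂ → ℂ := A.indicator fun z => y z / ‖y z‖
  have hgm : Measurable g := (hy.div hy.norm.complex_ofReal).indicator hA
  have hgb : ∀ z, ‖g z‖ ≤ A.indicator (fun _ => (1 : ℝ)) z := by
    intro z
    by_cases hz : z ∈ A
    · have h0 : 0 < ‖y z‖ := lt_of_le_of_lt hC hz
      simp only [g, indicator_of_mem hz]
      rw [norm_div, Complex.norm_real, norm_norm, div_self h0.ne']
    · simp only [g, indicator_of_notMem hz, norm_zero, le_refl]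
  have hg2 : MemLp g 2 ν := MemLp.of_bound hgm.aestronglyMeasurable 1 (ae_of_all _ fun z =>
    (hgb z).trans (indicator_le_self' (fun _ _ => zero_le_one) z))
  have h1 : ∀ n, ‖∫ z, p n z * g z ∂ν‖ ≤ ∫ z in A, C ∂ν := by
    intro n
    rw [← integral_indicator hA]
    refine norm_integral_le_of_norm_le ((integrable_const C).indicator hA)
      (ae_of_all _ fun z => ?_)
    rw [norm_mul]
    by_cases hz : z ∈ A
    · have h3 := hgb z
      rw [indicator_of_mem hz] at h3
      rw [indicator_of_mem hz]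
      calc ‖p n z‖ * ‖g z‖ ≤ C * 1 := mul_le_mul (hb n z) h3 (norm_nonneg _) hC
        _ = C := mul_one C
    · have h3 := hgb z
      rw [indicator_of_notMem hz] at h3
      rw [indicator_of_notMem hz, le_antisymm h3 (norm_nonneg _), mul_zero]
  have h2 : ∫ z, conj (y z) * g z ∂ν = ((∫ z in A, ‖y z‖ ∂ν : ℝ) : ℂ) := by
    rw [← integral_complex_ofReal, ← integral_indicator hA]
    refine integral_congr_ae (ae_of_all _ fun z => ?_)
    by_cases hz : z ∈ A
    · have h0 : 0 < ‖y z‖ := lt_of_le_of_lt hC hz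
      simp only [g, indicator_of_mem hz]
      have h0' : (‖y z‖ : ℂ) ≠ 0 := Complex.ofReal_ne_zero.2 h0.ne'
      rw [mul_div_assoc', mul_comm (conj (y z)), Complex.mul_conj, Complex.normSq_eq_norm_sq,
        div_eq_iff h0']
      push_cast
      ring
    · simp only [g, indicator_of_notMem hz, mul_zero]
  have h3 : ∫ z in A, ‖y z‖ ∂ν ≤ ∫ z in A, C ∂ν := by
    have h4 := le_of_tendsto (hl g hg2).norm (Eventually.of_forall h1)
    rw [h2, Complex.norm_real] at h4
    exact (le_abs_self _).trans h4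
  have h5 : ∫ z in A, (‖y z‖ - C) ∂ν = 0 := by
    apply le_antisymm
    · rw [integral_sub hyi.norm.integrableOn (integrable_const C)]
      linarith
    · exact setIntegral_nonneg hA fun z hz => sub_nonneg.2 (le_of_lt hz)
  have h6 : (fun z => ‖y z‖ - C) =ᵐ[ν.restrict A] 0 := by
    refine (integral_eq_zero_iff_of_nonneg_ae ?_ ?_).1 h5
    · exact (ae_restrict_iff' hA).2 (ae_of_all _ fun z hz => sub_nonneg.2 (le_of_lt hz))
    · exact hyi.norm.integrableOn.sub (integrable_const C)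
  have h7 := (ae_restrict_iff' hA).1 h6
  filter_upwards [h7] with z hz
  by_contra hc
  have h8 : z ∈ A := not_le.1 hc
  have h9 : ‖y z‖ - C = 0 := hz h8
  exact hc (by linarith)

/-- from square integrable to integrable functions -/
theorem step3 (p : ℕ → ℂ → ℂ) (Q : ℂ → ℂ) (C : ℝ) (hC : 0 ≤ C) (hm : ∀ n, Measurable (p n))
    (hb : ∀ n z, ‖p n z‖ ≤ C) (hQ : Measurable Q) (hQb : ∀ z, ‖Q z‖ ≤ C)
    (hl : ∀ g : ℂ → ℂ, MemLp g 2 ν →
      Tendsto (fun n => ∫ z, p n z * g z ∂ν) atTop (𝓝 (∫ z, Q z * g z ∂ν))) :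
    ∀ h : ℂ → ℂ, Integrable h ν →
      Tendsto (fun n => ∫ z, p n z * h z ∂ν) atTop (𝓝 (∫ z, Q z * h z ∂ν)) := by
  intro h hh
  rw [Metric.tendsto_atTop]
  intro ε hε
  have hδ : 0 < ε / (3 * (C + 1)) := by positivity
  obtain ⟨g, hg1, hg2⟩ := (memLp_one_iff_integrable.2 hh).exists_simpleFunc_eLpNorm_sub_lt
    ENNReal.one_ne_top (ENNReal.ofReal_pos.2 hδ).ne'
  have hgi : Integrable g ν := memLp_one_iff_integrable.1 hg2
  have hd : ∫ z, ‖h z - g z‖ ∂ν < ε / (3 * (C + 1)) := by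
    have h1 : eLpNorm (h - ⇑g) 1 ν = ENNReal.ofReal (∫ z, ‖h z - g z‖ ∂ν) := by
      rw [eLpNorm_one_eq_lintegral_enorm]
      exact (ofReal_integral_norm_eq_lintegral_enorm (hh.sub hgi)).symm
    rw [h1] at hg1
    exact (ENNReal.ofReal_lt_ofReal_iff hδ).1 hg1
  have key : ∀ F : ℂ → ℂ, Measurable F → (∀ z, ‖F z‖ ≤ C) →
      ‖(∫ z, F z * h z ∂ν) - ∫ z, F z * g z ∂ν‖ ≤ ε / 3 := by
    intro F hF hFb
    rw [← integral_sub (hh.bdd_mul hF.aestronglyMeasurable (ae_of_all _ hFb))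
      (hgi.bdd_mul hF.aestronglyMeasurable (ae_of_all _ hFb))]
    have h1 : ‖∫ z, (F z * h z - F z * g z) ∂ν‖ ≤ ∫ z, C * ‖h z - g z‖ ∂ν := by
      refine norm_integral_le_of_norm_le ((hh.sub hgi).norm.const_mul C)
        (ae_of_all _ fun z => ?_)
      rw [← mul_sub, norm_mul]
      exact mul_le_mul_of_nonneg_right (hFb z) (norm_nonneg _)
    rw [integral_const_mul] at h1
    refine h1.trans ?_
    calc C * ∫ z, ‖h z - g z‖ ∂ν ≤ (C + 1) * (ε / (3 * (C + 1))) :=
          mul_le_mul (by linarith) hd.le (integral_nonneg fun _ => norm_nonneg _) (by linarith)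
      _ = ε / 3 := by field_simp
  have hg22 : MemLp g 2 ν := SimpleFunc.memLp_of_isFiniteMeasure g 2 ν
  obtain ⟨N, hN⟩ := (Metric.tendsto_atTop.1 (hl g hg22)) (ε / 3) (by positivity)
  refine ⟨N, fun n hn => ?_⟩
  have h1 := key (p n) (hm n) (hb n)
  have h2 := key Q hQ hQb
  have h3 := hN n hn
  rw [dist_eq_norm] at h3 ⊢
  have e1 : (∫ z, p n z * h z ∂ν) - ∫ z, Q z * h z ∂ν =
      ((∫ z, p n z * h z ∂ν) - ∫ z, p n z * g z ∂ν) +
      ((∫ z, p n z * g z ∂ν) - ∫ z, Q z * g z ∂ν) -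
      ((∫ z, Q z * h z ∂ν) - ∫ z, Q z * g z ∂ν) := by ring
  rw [e1]
  refine lt_of_le_of_lt (norm_sub_le _ _) ?_
  have h4 := norm_add_le ((∫ z, p n z * h z ∂ν) - ∫ z, p n z * g z ∂ν)
    ((∫ z, p n z * g z ∂ν) - ∫ z, Q z * g z ∂ν)
  linarith

end gen

/-- WKS -/
theorem main : Pool.Agent.Y271.RO.S_WKS := by
  intro q a r C hC hm hb
  have : IsFiniteMeasure (volume.restrict (ball a r)) :=
    ⟨by rw [Measure.restrict_apply_univ]; exact measure_ball_lt_top⟩
  let p : ℕ → ℂ → ℂ := fun n => (ball a r).indicator (q n)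
  have hpm : ∀ n, Measurable (p n) := fun n => (hm n).indicator measurableSet_ball
  have hpb : ∀ n z, ‖p n z‖ ≤ C := by
    intro n z
    by_cases hz : z ∈ ball a r
    · simp only [p, indicator_of_mem hz]
      exact hb n z hz
    · simp only [p, indicator_of_notMem hz, norm_zero]
      exact hC
  have hpq : ∀ n (h : ℂ → ℂ), ∫ z in ball a r, q n z * h z = ∫ z in ball a r, p n z * h z := by
    intro n h
    refine setIntegral_congr_fun measurableSet_ball fun z hz => ?_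
    simp only [p, indicator_of_mem hz]
  obtain ⟨s, y, hs, hy, hyi, hl⟩ := step1 (volume.restrict (ball a r)) p C hC hpm hpb
  have hyb := step2 (volume.restrict (ball a r)) (fun n => p (s n)) C hC (fun n => hpm (s n))
    (fun n => hpb (s n)) y hy hyi hl
  let Q : ℂ → ℂ := fun z => if ‖y z‖ ≤ C then conj (y z) else 0
  have hQ : Measurable Q := Measurable.ite (measurableSet_le hy.norm measurable_const)
    (Complex.continuous_conj.measurable.comp hy) measurable_const
  have hQb : ∀ z, ‖Q z‖ ≤ C := by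
    intro z
    by_cases hz : ‖y z‖ ≤ C
    · simp only [Q, if_pos hz, RCLike.norm_conj]
      exact hz
    · simp only [Q, if_neg hz, norm_zero]
      exact hC
  refine ⟨s, Q, hs, hQ, hQb, fun h hh => ?_⟩
  simp only [hpq]
  refine step3 (volume.restrict (ball a r)) (fun n => p (s n)) Q C hC (fun n => hpm (s n))
    (fun n => hpb (s n)) hQ hQb (fun g hg => ?_) h hh
  have h1 : ∫ z, Q z * g z ∂(volume.restrict (ball a r)) =
      ∫ z, conj (y z) * g z ∂(volume.restrict (ball a r)) := by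
    refine integral_congr_ae ?_
    filter_upwards [hyb] with z hz
    simp only [Q, if_pos hz]
  rw [h1]
  exact hl g hg

end Pool.Agent.Y349.RO
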